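import Pool.Agent.U38.WS.O2

/-!
# Bilateral weighted shifts with geometrically decreasing weights are unicellular

Let `e n`, `n ∈ ℤ`, be an orthonormal basis of a complex Hilbert space, and `W e_n = w_n e_{n+1}`, where
the complex numbers `w_n ≠ 0` satisfy `|w_n| ≤ C q ^ |n|` for some `q < 1`, and `|w_n|` does not increase
for `n ≥ n₀` to the right and for `n ≤ -n₀` to the left.

**Theorem.** The closed invariant subspaces of `W` are `0`, the whole space and the spaces `M_k`, the
closed spans of the `e n` with `n ≥ k`. They form a chain of order type `1 + *ω + ω + 1`.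

This answers both questions of Halmos: the shift `W e_n = 2 ^ (-|n|) e_{n+1}` has only the obvious
invariant subspaces, and the chain `1 + *ω + ω + 1` is attainable.

The proof. Let `x ∈ M` and `z` orthogonal to `M`, and suppose that `x` has infinitely many nonzero
coefficients to the left and `z` to the right. The left part of `x` and the right part of `z` are the
coefficients of two entire functions `A` and `B` of order zero with `O(log r)` zeros in the disc of
radius `r`, and the equations `⟨W^j x, z⟩ = 0` say that the coefficients of the product `A B` are as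
small as those of `A` and `B`: `‖A B‖_r ≤ O(r^c) (‖A‖_r + ‖B‖_r)` for the sums of the absolute values of
the terms at the radius `r`, and `c` does not depend on `x` and `z`. Gelfond's inequality (the
multiplicativity of the Mahler measure) gives `‖A‖_r ‖B‖_r ≤ r^c ‖A B‖_r`, which is impossible because
`‖A‖_r` and `‖B‖_r` grow faster than every power of `r`. So one of the two is a polynomial, and then
the argument of Donoghue and Nikolskii for unilateral shifts applies.
-/

set_option autoImplicit false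

open TopologicalSpace

namespace Pool.Agent.Results.MP_1e8505_an.UnicellularShifts

/-- The subspace `M_k`: the closed span of the vectors `e n`, `n ≥ k`. -/
noncomputable def M {H : Type} [NormedAddCommGroup H] [InnerProductSpace ℂ H]
    (e : HilbertBasis ℤ ℂ H) (k : ℤ) : Submodule ℂ H :=
  (Submodule.span ℂ (e '' Set.Ici k)).topologicalClosure

/-- The lattice `Lat A` of the closed subspaces which are invariant under `A`, ordered by
inclusion. -/
abbrev Lat {H : Type} [NormedAddCommGroup H] [InnerProductSpace ℂ H] (A : H →L[ℂ] H) : Type :=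
  {N : Submodule ℂ H // IsClosed (N : Set H) ∧ ∀ x ∈ N, A x ∈ N}

/-- `W` is the weighted shift `W e_n = w_n e_{n+1}`. -/
def IsShift {H : Type} [NormedAddCommGroup H] [InnerProductSpace ℂ H] (e : HilbertBasis ℤ ℂ H)
    (w : ℤ → ℂ) (W : H →L[ℂ] H) : Prop :=
  ∀ n, W (e n) = w n • e (n + 1)

/-- The closed invariant subspaces of `W` are exactly `0`, the whole space and the `M_k`. -/
def OnlyObvious {H : Type} [NormedAddCommGroup H] [InnerProductSpace ℂ H] (e : HilbertBasis ℤ ℂ H)
    (W : H →L[ℂ] H) : Prop :=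
  ∀ N : Submodule ℂ H, (IsClosed (N : Set H) ∧ ∀ x ∈ N, W x ∈ N) ↔
    (N = ⊥ ∨ N = ⊤ ∨ ∃ k : ℤ, N = M e k)

/-- The chain `1 + *ω + ω + 1` (`ℤ` with a new least and a new greatest element) is order isomorphic
to `Lat A`. -/
def LatIsChain {H : Type} [NormedAddCommGroup H] [InnerProductSpace ℂ H] (A : H →L[ℂ] H) : Prop :=
  Nonempty (Lat A ≃o WithBot (WithTop ℤ))

/-- The weights have no zeros, they decrease geometrically, `|w_n| ≤ C q ^ |n|` with `0 < q < 1`, and
`|w_n|` does not increase for `n ≥ n₀` to the right and for `n ≤ -n₀` to the left. -/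
structure Geometric (w : ℤ → ℂ) (n₀ : ℕ) (C q : ℝ) : Prop where
  ne_zero : ∀ n, w n ≠ 0
  right : ∀ n : ℤ, n₀ ≤ n → ‖w (n + 1)‖ ≤ ‖w n‖
  left : ∀ n : ℤ, n ≤ -n₀ → ‖w (n - 1)‖ ≤ ‖w n‖
  q_pos : 0 < q
  q_lt_one : q < 1
  le : ∀ n : ℤ, ‖w n‖ ≤ C * q ^ n.natAbs

/-- The chain `1 + *ω + ω + 1` is attainable: it is the lattice of the closed invariant subspaces of a
bounded operator on a separable complex Hilbert space. -/
def Attainable : Prop :=
  ∃ (H : Type) (_ : NormedAddCommGroup H) (_ : InnerProductSpace ℂ H) (_ : CompleteSpace H)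
    (_ : SeparableSpace H) (A : H →L[ℂ] H), LatIsChain A

/-- **Unicellular bilateral weighted shifts.**

1. Let `w : ℤ → ℂ` have no zeros, `‖w n‖ ≤ C q ^ |n|` with `0 < q < 1`, `‖w (n + 1)‖ ≤ ‖w n‖` for
`n ≥ n₀` and `‖w (n - 1)‖ ≤ ‖w n‖` for `n ≤ -n₀`. For every orthonormal basis `e n`, `n ∈ ℤ`, of a complex
Hilbert space there is a bounded operator `W` with `W e_n = w_n e_{n+1}`, and for each such `W` the closed
invariant subspaces are exactly `0`, the whole space and the `M_k`; the lattice `Lat W` is isomorphic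
to `ℤ` with a new least and a new greatest element.
2. (Q2) This holds for `W e_n = 2 ^ (-|n|) e_{n+1}`.
3. (Q1) The chain `1 + *ω + ω + 1`, which is `ℤ` with a new least and a new greatest element, is the
lattice of the invariant subspaces of a bounded operator on a separable Hilbert space. -/
theorem result :
    (∀ (w : ℤ → ℂ) (n₀ : ℕ) (C q : ℝ), Geometric w n₀ C q →
      ∀ (H : Type) [NormedAddCommGroup H] [InnerProductSpace ℂ H] [CompleteSpace H]
        (e : HilbertBasis ℤ ℂ H), (∃ W : H →L[ℂ] H, IsShift e w W) ∧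
        ∀ W : H →L[ℂ] H, IsShift e w W → OnlyObvious e W ∧ LatIsChain W) ∧
    (∀ (H : Type) [NormedAddCommGroup H] [InnerProductSpace ℂ H] [CompleteSpace H]
      (e : HilbertBasis ℤ ℂ H) (W : H →L[ℂ] H),
      IsShift e (fun n : ℤ => ((2 : ℂ) ^ n.natAbs)⁻¹) W → OnlyObvious e W) ∧
    Attainable := by
  have main : ∀ (w : ℤ → ℂ) (n₀ : ℕ) (C q : ℝ), Geometric w n₀ C q →
      ∀ (H : Type) [NormedAddCommGroup H] [InnerProductSpace ℂ H] [CompleteSpace H]
        (e : HilbertBasis ℤ ℂ H), (∃ W : H →L[ℂ] H, IsShift e w W) ∧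
        ∀ W : H →L[ℂ] H, IsShift e w W → OnlyObvious e W ∧ LatIsChain W := by
    rintro w n₀ C q ⟨hw, hr, hl, q0, q1, hC⟩ H _ _ _ e
    obtain ⟨w', d, B, hw', d0, dB, dB', hd⟩ := U38.WS.exists_diagonal w hw n₀ hr hl C q q0 q1 hC
    have hdiag : U38.WS.Diag w w' d B := ⟨d0, dB, dB', hd⟩
    have hC0 : 0 ≤ C := by
      have := (norm_nonneg _).trans (hC 0)
      simpa using this
    refine ⟨U38.WS.exists_shift e w C fun n => (hC n).trans ?_, fun W hW => ?_⟩
    · calc C * q ^ n.natAbs ≤ C * 1 :=
            mul_le_mul_of_nonneg_left (pow_le_one₀ q0.le q1.le) hC0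
        _ = C := mul_one _
    · have hcl : ∀ N : Submodule ℂ H, IsClosed (N : Set H) → (∀ x ∈ N, W x ∈ N) →
          N = ⊥ ∨ N = ⊤ ∨ ∃ k : ℤ, N = U38.WS.tail e k := fun N h1 h2 =>
        U38.WS.classify e hw' hdiag W hW N h1 h2
      refine ⟨fun N => ⟨fun h => hcl N h.1 h.2, ?_⟩, U38.WS.order_iso e w W hW hcl⟩
      rintro (rfl | rfl | ⟨k, rfl⟩)
      · exact ⟨isClosed_singleton, fun x hx => by
          rw [Submodule.mem_bot] at hx ⊢
          rw [hx, map_zero]⟩
      · exact ⟨isClosed_univ, fun x _ => Submodule.mem_top⟩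
      · exact ⟨U38.WS.isClosed_tail e k, U38.WS.tail_invariant e w W hW k⟩
  have key2 : ∀ n : ℤ, ((2 : ℂ) ^ n.natAbs)⁻¹ ≠ 0 := fun n =>
    inv_ne_zero (pow_ne_zero _ two_ne_zero)
  have nrm : ∀ n : ℤ, ‖((2 : ℂ) ^ n.natAbs)⁻¹‖ = (1 / 2 : ℝ) ^ n.natAbs := fun n => by
    rw [norm_inv, norm_pow, one_div, inv_pow]
    norm_num
  have halmos := main (fun n => ((2 : ℂ) ^ n.natAbs)⁻¹) 0 1 (1 / 2)
    { ne_zero := key2
      right := fun n hn => by
        rw [nrm, nrm]
        exact pow_le_pow_of_le_one (by norm_num) (by norm_num) (by omega)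
      left := fun n hn => by
        rw [nrm, nrm]
        exact pow_le_pow_of_le_one (by norm_num) (by norm_num) (by omega)
      q_pos := by norm_num
      q_lt_one := by norm_num
      le := fun n => by rw [nrm, one_mul] }
  refine ⟨main, fun H _ _ _ e W hW => ((halmos H e).2 W hW).1, ?_⟩
  -- the standard basis
  let e : HilbertBasis ℤ ℂ (lp (fun _ : ℤ => ℂ) 2) := HilbertBasis.ofRepr (LinearIsometryEquiv.refl ℂ _)
  obtain ⟨⟨W, hW⟩, h2⟩ := halmos _ e
  refine ⟨lp (fun _ : ℤ => ℂ) 2, inferInstance, inferInstance, inferInstance, ?_, W, (h2 W hW).2⟩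
  have h1 : IsSeparable (Set.range e) := (Set.countable_range e).isSeparable
  have h3 : IsSeparable ((Submodule.span ℂ (Set.range e)).topologicalClosure :
      Set (lp (fun _ : ℤ => ℂ) 2)) := (h1.span (R := ℂ)).closure
  rw [e.dense_span] at h3
  exact isSeparable_univ_iff.1 h3

end Pool.Agent.Results.MP_1e8505_an.UnicellularShifts
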